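import Mathlib

set_option autoImplicit false

/-!
# Permutations of `{1, …, n}` close to the identity whose sums `k + σ k` are prime
-/

open Filter Topology

namespace Pool.Agent.Results.MP_3998cf_nt.PrimeSumPermutations

/-- `√p_{n+1} - √p_n` (the primes are indexed from `0`). -/
noncomputable def d (n : ℕ) : ℝ :=
  √(Nat.nth Nat.Prime (n + 1) : ℝ) - √(Nat.nth Nat.Prime n : ℝ)

/-- There is a permutation `σ` of `{1, …, n}` such that all `k + σ k` are prime and
`|σ k - k| ≤ δ` for all `k`. -/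
def PrimePerm (n : ℕ) (δ : ℝ) : Prop :=
  ∃ σ : ℕ → ℕ, Set.BijOn σ (Set.Icc 1 n) (Set.Icc 1 n) ∧
    ∀ k ∈ Set.Icc 1 n, (k + σ k).Prime ∧ |(σ k : ℝ) - k| ≤ δ

/-- The set `{1, …, n}` is a union of disjoint pairs `{a, b}` with `a + b` prime and
`|a - b| ≤ δ`. -/
def PrimePairs (n : ℕ) (δ : ℝ) : Prop :=
  ∃ σ : ℕ → ℕ, ∀ k ∈ Set.Icc 1 n, σ k ∈ Set.Icc 1 n ∧ σ k ≠ k ∧ σ (σ k) = k ∧
    (k + σ k).Prime ∧ |(σ k : ℝ) - k| ≤ δ

theorem PrimePairs.perm {n : ℕ} {δ : ℝ} (h : PrimePairs n δ) : PrimePerm n δ := by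
  obtain ⟨σ, h⟩ := h
  refine ⟨σ, ⟨fun k hk => (h k hk).1, fun a ha b hb hab => ?_, fun k hk => ?_⟩, fun k hk =>
    ⟨(h k hk).2.2.2.1, (h k hk).2.2.2.2⟩⟩
  · rw [← (h a ha).2.2.1, ← (h b hb).2.2.1, hab]
  · exact ⟨σ k, (h k hk).1, (h k hk).2.2.1⟩

/-- every large even number `2n` has a prime in `[2n - δ √n, 2n]` -/
def Near (δ : ℝ) : Prop :=
  ∀ᶠ n : ℕ in atTop, ∃ p : ℕ, p.Prime ∧ p ≤ 2 * n ∧ (2 * n - p : ℝ) ≤ δ * √n

theorem near_of_perm {δ : ℝ} (h : ∀ᶠ n : ℕ in atTop, PrimePerm n (δ * √n)) : Near δ := by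
  filter_upwards [h, eventually_ge_atTop 1] with n ⟨σ, hσ, hk⟩ hn
  have hn' : n ∈ Set.Icc 1 n := ⟨hn, le_rfl⟩
  have h1 := hσ.1 hn'
  obtain ⟨h2, h3⟩ := hk n hn'
  refine ⟨_, h2, by have := h1.2; omega, ?_⟩
  have h4 := (abs_le.1 h3).1
  push_cast
  linarith

theorem near_of_pairs {δ : ℝ} (h : ∀ᶠ n : ℕ in atTop, Even n → PrimePairs n (δ * √n))
    {δ' : ℝ} (hδ : δ < δ') (h0 : 0 ≤ δ) : Near δ' := by
  -- use `n` or `n + 1`
  have hs : Tendsto (fun n : ℕ => √(n : ℝ)) atTop atTop :=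
    Real.tendsto_sqrt_atTop.comp tendsto_natCast_atTop_atTop
  have h1 : Tendsto (fun n : ℕ => n + 1) atTop atTop := tendsto_add_atTop_nat 1
  filter_upwards [h, h1.eventually h, eventually_ge_atTop 4,
    hs.eventually_ge_atTop ((2 + δ) / (δ' - δ))] with n hn hn1 h4 hbig
  have hd : 0 < δ' - δ := by linarith
  rw [div_le_iff₀ hd] at hbig
  have hsn : 0 ≤ √(n : ℝ) := Real.sqrt_nonneg _
  rcases Nat.even_or_odd n with he | ho
  · obtain ⟨σ, hσ⟩ := hn he
    have hn' : n ∈ Set.Icc 1 n := ⟨by omega, le_rfl⟩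
    obtain ⟨h2, -, -, h3, h5⟩ := hσ n hn'
    refine ⟨_, h3, by have := h2.2; omega, ?_⟩
    have h6 := (abs_le.1 h5).1
    push_cast
    nlinarith
  · -- `m = n - 1` is even, a prime near `2 (n - 1)`
    obtain ⟨σ, hσ⟩ := hn1 (by
      rcases ho with ⟨t, rfl⟩
      exact ⟨t + 1, by ring⟩)
    -- the element `n` of `{1, …, n + 1}`
    have hn' : n ∈ Set.Icc 1 (n + 1) := ⟨by omega, by omega⟩
    obtain ⟨h2, h2', -, h3, h5⟩ := hσ n hn'
    have h2l := h2.1
    have h2r := h2.2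
    have hne : σ n ≠ n := h2'
    by_cases hlt : σ n < n
    · refine ⟨_, h3, by omega, ?_⟩
      have h6 := (abs_le.1 h5).1
      have h7 : √((n + 1 : ℕ) : ℝ) ≤ √(n : ℝ) + 1 := by
        rw [Real.sqrt_le_left (by positivity)]
        push_cast
        nlinarith [Real.sq_sqrt (Nat.cast_nonneg (α := ℝ) n)]
      push_cast at h6 ⊢
      push_cast at h7
      nlinarith
    · -- `σ n = n + 1`, then take `n - 1`
      have hσn : σ n = n + 1 := by omega
      have hn2 : n - 1 ∈ Set.Icc 1 (n + 1) := ⟨by omega, by omega⟩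
      obtain ⟨g2, g2', g4, g3, g5⟩ := hσ (n - 1) hn2
      have g2l := g2.1
      have g2r := g2.2
      have e1 : σ (n - 1) ≠ n + 1 := by
        intro h
        have : σ (σ (n - 1)) = σ (σ n) := by rw [h, hσn]
        rw [g4, (hσ n hn').2.2.1] at this
        omega
      have e2 : σ (n - 1) ≠ n := by
        intro h
        have h8 : σ (σ (n - 1)) = σ n := by rw [h]
        rw [g4, hσn] at h8
        omega
      refine ⟨_, g3, by omega, ?_⟩
      have h6 := (abs_le.1 g5).1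
      have h7 : √((n + 1 : ℕ) : ℝ) ≤ √(n : ℝ) + 1 := by
        rw [Real.sqrt_le_left (by positivity)]
        push_cast
        nlinarith [Real.sq_sqrt (Nat.cast_nonneg (α := ℝ) n)]
      have h9 : ((n - 1 : ℕ) : ℝ) = n - 1 := by
        rw [Nat.cast_sub (by omega)]
        simp
      push_cast at h6 ⊢
      push_cast at h7
      rw [h9] at h6 ⊢
      nlinarith

/-- blocks reversed around half a prime -/
theorem pairs_of_near {δ : ℝ} (hδ : 0 ≤ δ) {N : ℕ}
    (h : ∀ n : ℕ, N ≤ n → ∃ p : ℕ, p.Prime ∧ n < p ∧ p ≤ 2 * n ∧ (2 * n - p : ℝ) ≤ δ * √n)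
    (n : ℕ) : ∃ σ : ℕ → ℕ, ∀ k ∈ Set.Icc 1 n, σ k ∈ Set.Icc 1 n ∧ σ (σ k) = k ∧
      (k + σ k).Prime ∧ |(σ k : ℝ) - k| ≤ max (N : ℝ) (δ * √n) ∧ (Even n → σ k ≠ k) := by
  induction n using Nat.strong_induction_on with
  | _ n ih =>
    rcases Nat.eq_zero_or_pos n with rfl | hn
    · exact ⟨id, fun k hk => by simp at hk⟩
    · obtain ⟨p, hp, h1, h2, h3⟩ : ∃ p : ℕ, p.Prime ∧ n < p ∧ p ≤ 2 * n ∧
          (2 * n - p : ℝ) ≤ max (N : ℝ) (δ * √n) := by
        rcases le_or_gt N n with hN | hN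
        · obtain ⟨p, hp, h1, h2, h3⟩ := h n hN
          exact ⟨p, hp, h1, h2, h3.trans (le_max_right _ _)⟩
        · obtain ⟨p, hp, h1, h2⟩ := Nat.exists_prime_lt_and_le_two_mul n (by omega)
          refine ⟨p, hp, h1, h2, le_trans ?_ (le_max_left _ _)⟩
          have h4 : (n : ℝ) < p := by exact_mod_cast h1
          have h5 : (n : ℝ) < N := by exact_mod_cast hN
          linarith
      obtain ⟨τ, hτ⟩ := ih (p - n - 1) (by omega)
      have hmono : max (N : ℝ) (δ * √((p - n - 1 : ℕ) : ℝ)) ≤ max (N : ℝ) (δ * √n) := by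
        apply max_le_max le_rfl
        apply mul_le_mul_of_nonneg_left _ hδ
        apply Real.sqrt_le_sqrt
        exact_mod_cast (show p - n - 1 ≤ n by omega)
      refine ⟨fun k => if k ≤ p - n - 1 then τ k else p - k, fun k hk => ?_⟩
      have hk1 := hk.1
      have hk2 := hk.2
      by_cases hkk : k ≤ p - n - 1
      · obtain ⟨a1, a2, a3, a4, a5⟩ := hτ k ⟨hk1, hkk⟩
        have a11 := a1.1
        have a12 := a1.2
        simp only [hkk, if_true, a12]
        refine ⟨⟨a11, by omega⟩, a2, a3, a4.trans hmono, fun he => a5 ?_⟩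
        -- `p` is odd
        have hp2 : p ≠ 2 := by
          rintro rfl
          have : n = 1 := by omega
          subst this
          exact absurd he (by decide)
        have hpo := hp.odd_of_ne_two hp2
        have e : p - n - 1 + (n + 1) = p := by omega
        rw [← e] at hpo
        rcases he with ⟨t, rfl⟩
        rcases hpo with ⟨s, hs⟩
        exact ⟨s - t, by omega⟩
      · have hkn : ¬ p - k ≤ p - n - 1 := by omega
        simp only [hkk, if_false, hkn]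
        refine ⟨⟨by omega, by omega⟩, by omega, ?_, ?_, ?_⟩
        · have : k + (p - k) = p := by omega
          rw [this]
          exact hp
        · refine le_trans ?_ h3
          rw [Nat.cast_sub (by omega), abs_le]
          have b1 : (k : ℝ) ≤ n := by exact_mod_cast hk2
          have b2 : (p : ℝ) ≤ n + k := by exact_mod_cast (show p ≤ n + k by omega)
          constructor <;> linarith
        · rintro ⟨t, rfl⟩ h5
          have h6 : p = 2 * k := by omega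
          have h7 : p = 2 := by
            rcases (Nat.Prime.eq_one_or_self_of_dvd hp 2 ⟨k, h6⟩) with h | h
            · omega
            · exact h.symm
          omega

theorem pairs_of_near' {δ : ℝ} (hδ : 0 < δ) (h : Near δ) :
    ∀ᶠ n : ℕ in atTop, (Even n → PrimePairs n (δ * √n)) ∧ PrimePerm n (δ * √n) := by
  have hs : Tendsto (fun n : ℕ => √(n : ℝ)) atTop atTop :=
    Real.tendsto_sqrt_atTop.comp tendsto_natCast_atTop_atTop
  have h' : ∀ᶠ n : ℕ in atTop, ∃ p : ℕ, p.Prime ∧ n < p ∧ p ≤ 2 * n ∧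
      (2 * n - p : ℝ) ≤ δ * √n := by
    filter_upwards [h, hs.eventually_gt_atTop δ] with n ⟨p, hp, h1, h2⟩ h3
    refine ⟨p, hp, ?_, h1, h2⟩
    have h4 : δ * √(n : ℝ) < n := by
      have h5 := Real.sq_sqrt (Nat.cast_nonneg (α := ℝ) n)
      nlinarith
    have : (n : ℝ) < p := by linarith
    exact_mod_cast this
  obtain ⟨N, hN⟩ := eventually_atTop.1 h'
  filter_upwards [hs.eventually_ge_atTop ((N : ℝ) / δ)] with n hn
  rw [div_le_iff₀ hδ] at hn
  obtain ⟨σ, hσ⟩ := pairs_of_near hδ.le hN n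
  have hmax : max (N : ℝ) (δ * √n) = δ * √n := max_eq_right (by linarith)
  rw [hmax] at hσ
  constructor
  · intro he
    exact ⟨σ, fun k hk => ⟨(hσ k hk).1, (hσ k hk).2.2.2.2 he, (hσ k hk).2.1, (hσ k hk).2.2.1,
      (hσ k hk).2.2.2.1⟩⟩
  · refine ⟨σ, ⟨fun k hk => (hσ k hk).1, fun a ha b hb hab => ?_, fun k hk => ?_⟩, fun k hk =>
      ⟨(hσ k hk).2.2.1, (hσ k hk).2.2.2.1⟩⟩
    · rw [← (hσ a ha).2.1, ← (hσ b hb).2.1, hab]
    · exact ⟨σ k, (hσ k hk).1, (hσ k hk).2.1⟩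

/-- the primes around a number -/
theorem around (y : ℕ) (hy : 2 ≤ y) : ∃ m, Nat.nth Nat.Prime m ≤ y ∧
    y < Nat.nth Nat.Prime (m + 1) := by
  have hex : ∃ m, y < Nat.nth Nat.Prime m := by
    have h1 : Tendsto (Nat.nth Nat.Prime) atTop atTop :=
      (Nat.nth_strictMono Nat.infinite_setOfPred_prime).tendsto_atTop
    exact (h1.eventually_gt_atTop y).exists
  classical
  have h1 : y < Nat.nth Nat.Prime (Nat.find hex) := Nat.find_spec hex
  have h0 : Nat.find hex ≠ 0 := by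
    intro h
    rw [h, Nat.nth_prime_zero_eq_two] at h1
    omega
  obtain ⟨m, hm⟩ := Nat.exists_eq_succ_of_ne_zero h0
  refine ⟨m, not_lt.1 (Nat.find_min hex (m := m) (by omega)), ?_⟩
  rw [hm] at h1
  exact h1

theorem near_of_d {c : ℝ} (hc : 0 ≤ c) (h : ∀ ε : ℝ, 0 < ε → ∀ᶠ n in atTop, d n ≤ c + ε) {ε : ℝ}
    (hε : 0 < ε) : Near (2 * √2 * c + ε) := by
  have h2 : (0 : ℝ) < 2 * √2 := by positivity
  obtain ⟨M, hM⟩ := eventually_atTop.1 (h (ε / (2 * √2)) (by positivity))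
  filter_upwards [eventually_ge_atTop (Nat.nth Nat.Prime M + 1)] with n hn
  obtain ⟨m, hm1, hm2⟩ := around (2 * n) (by
    have := (Nat.prime_nth_prime M).two_le
    omega)
  have hMm : M ≤ m := by
    by_contra hlt
    have h3 : Nat.nth Nat.Prime (m + 1) ≤ Nat.nth Nat.Prime M :=
      (Nat.nth_strictMono Nat.infinite_setOfPred_prime).monotone (by omega)
    omega
  refine ⟨_, Nat.prime_nth_prime m, hm1, ?_⟩
  have h3 := hM m hMm
  unfold d at h3
  set a := √((2 * n : ℕ) : ℝ) with ha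
  set b := √(Nat.nth Nat.Prime m : ℝ) with hb
  have ha0 : 0 ≤ a := Real.sqrt_nonneg _
  have hb0 : 0 ≤ b := Real.sqrt_nonneg _
  have ha2 : a ^ 2 = 2 * n := by
    rw [ha, Real.sq_sqrt (by positivity)]
    push_cast
    ring
  have hb2 : b ^ 2 = Nat.nth Nat.Prime m := by
    rw [hb, Real.sq_sqrt (by positivity)]
  have hba : b ≤ a := Real.sqrt_le_sqrt (by exact_mod_cast hm1)
  have hab : a ≤ √(Nat.nth Nat.Prime (m + 1) : ℝ) :=
    Real.sqrt_le_sqrt (by exact_mod_cast hm2.le)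
  have h4 : a - b ≤ c + ε / (2 * √2) := by linarith
  have ha' : a = √2 * √(n : ℝ) := by
    rw [ha, ← Real.sqrt_mul (by norm_num)]
    push_cast
    rfl
  have h5 : (2 * n - Nat.nth Nat.Prime m : ℝ) = (a - b) * (a + b) := by
    rw [← ha2, ← hb2]
    ring
  rw [h5]
  have h6 : (a - b) * (a + b) ≤ (c + ε / (2 * √2)) * (2 * a) := by
    apply mul_le_mul h4 (by linarith) (by linarith) (by positivity)
  refine h6.trans (le_of_eq ?_)
  rw [ha']
  field_simp

theorem d_of_near {c : ℝ} (hc : 0 ≤ c)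
    (h : ∀ ε : ℝ, 0 < ε → Near (2 * √2 * c + ε)) (ε : ℝ) (hε : 0 < ε) :
    ∀ᶠ n in atTop, d n ≤ c + ε := by
  have hN := h (√2 * ε) (by positivity)
  obtain ⟨N, hN⟩ := eventually_atTop.1 hN
  have hp : Tendsto (fun n => Nat.nth Nat.Prime (n + 1)) atTop atTop :=
    (Nat.nth_strictMono Nat.infinite_setOfPred_prime).tendsto_atTop.comp (tendsto_add_atTop_nat 1)
  have hs : Tendsto (fun n => √(Nat.nth Nat.Prime (n + 1) : ℝ)) atTop atTop :=
    Real.tendsto_sqrt_atTop.comp (tendsto_natCast_atTop_atTop.comp hp)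
  filter_upwards [hp.eventually_ge_atTop (2 * N + 3),
    hs.eventually_gt_atTop ((1 + (c + ε) ^ 2) / ε)] with m hm hbig
  rw [div_lt_iff₀ hε] at hbig
  have hq := Nat.prime_nth_prime (m + 1)
  have hodd := hq.odd_of_ne_two (by omega)
  obtain ⟨n, hn⟩ := hodd
  obtain ⟨p, hp, hp1, hp2⟩ := hN n (by omega)
  obtain ⟨j, hj⟩ : ∃ j, Nat.nth Nat.Prime j = p := by
    have h1 := Nat.range_nth_of_infinite Nat.infinite_setOfPred_prime
    have h2 : p ∈ Set.range (Nat.nth Nat.Prime) := by rw [h1]; exact hp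
    exact h2
  have hjm : j ≤ m := by
    by_contra hlt
    have h3 : Nat.nth Nat.Prime (m + 1) ≤ Nat.nth Nat.Prime j :=
      (Nat.nth_strictMono Nat.infinite_setOfPred_prime).monotone (by omega)
    omega
  have hpm : p ≤ Nat.nth Nat.Prime m := by
    rw [← hj]
    exact (Nat.nth_strictMono Nat.infinite_setOfPred_prime).monotone hjm
  unfold d
  set x := √(Nat.nth Nat.Prime (m + 1) : ℝ) with hx
  set y := √(Nat.nth Nat.Prime m : ℝ) with hy
  have hx0 : 0 ≤ x := Real.sqrt_nonneg _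
  have hy0 : 0 ≤ y := Real.sqrt_nonneg _
  have hx2 : x ^ 2 = 2 * n + 1 := by
    rw [hx, Real.sq_sqrt (by positivity), hn]
    push_cast
    ring
  have hy2 : y ^ 2 = Nat.nth Nat.Prime m := by
    rw [hy, Real.sq_sqrt (by positivity)]
  have hyp : (p : ℝ) ≤ y ^ 2 := by
    rw [hy2]
    exact_mod_cast hpm
  have hsn : √2 * √(n : ℝ) ≤ x := by
    rw [hx, ← Real.sqrt_mul (by norm_num), hn]
    apply Real.sqrt_le_sqrt
    push_cast
    linarith
  have h1 : x ^ 2 - y ^ 2 ≤ 1 + (2 * c + ε) * x := by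
    have h2 : (2 * √2 * c + √2 * ε) * √(n : ℝ) = (2 * c + ε) * (√2 * √(n : ℝ)) := by ring
    rw [h2] at hp2
    have h3 : (2 * c + ε) * (√2 * √(n : ℝ)) ≤ (2 * c + ε) * x :=
      mul_le_mul_of_nonneg_left hsn (by positivity)
    linarith
  by_contra hcon
  rw [not_le] at hcon
  have h3 : (c + ε) * (2 * x - (c + ε)) ≤ (x - y) * (2 * x - (x - y)) := by
    nlinarith
  nlinarith

/-- The result. -/
theorem result :
    (∀ c : ℝ, 0 ≤ c → List.TFAE [
      ∀ ε : ℝ, 0 < ε → ∀ᶠ n : ℕ in atTop, d n ≤ c + ε,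
      ∀ ε : ℝ, 0 < ε → ∀ᶠ n : ℕ in atTop, PrimePerm n ((2 * √2 * c + ε) * √n),
      ∀ ε : ℝ, 0 < ε → ∀ᶠ n : ℕ in atTop, Even n → PrimePairs n ((2 * √2 * c + ε) * √n)]) ∧
    List.TFAE [
      Tendsto d atTop (𝓝 0),
      ∀ ε : ℝ, 0 < ε → ∀ᶠ n : ℕ in atTop, PrimePerm n (ε * √n),
      ∀ ε : ℝ, 0 < ε → ∀ᶠ n : ℕ in atTop, Even n → PrimePairs n (ε * √n)] := by
  have key : ∀ c : ℝ, 0 ≤ c → List.TFAE [
      ∀ ε : ℝ, 0 < ε → ∀ᶠ n : ℕ in atTop, d n ≤ c + ε,
      ∀ ε : ℝ, 0 < ε → ∀ᶠ n : ℕ in atTop, PrimePerm n ((2 * √2 * c + ε) * √n),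
      ∀ ε : ℝ, 0 < ε → ∀ᶠ n : ℕ in atTop, Even n → PrimePairs n ((2 * √2 * c + ε) * √n)] := by
    intro c hc
    tfae_have 1 → 2 := fun h ε hε => by
      filter_upwards [pairs_of_near' (by positivity) (near_of_d hc h hε)] with n hn
      exact hn.2
    tfae_have 1 → 3 := fun h ε hε => by
      filter_upwards [pairs_of_near' (by positivity) (near_of_d hc h hε)] with n hn
      exact hn.1
    tfae_have 2 → 1 := fun h => d_of_near hc fun ε hε => near_of_perm (h ε hε)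
    tfae_have 3 → 1 := fun h => d_of_near hc fun ε hε =>
      near_of_pairs (h (ε / 2) (by linarith)) (by linarith) (by positivity)
    tfae_finish
  refine ⟨key, ?_⟩
  have h0 := key 0 le_rfl
  simp only [mul_zero, zero_add] at h0
  have h1 : Tendsto d atTop (𝓝 0) ↔ ∀ ε : ℝ, 0 < ε → ∀ᶠ n : ℕ in atTop, d n ≤ ε := by
    have hd : ∀ n, 0 ≤ d n := fun n => by
      unfold d
      rw [sub_nonneg]
      apply Real.sqrt_le_sqrt
      exact_mod_cast (Nat.nth_strictMono Nat.infinite_setOfPred_prime).monotone (Nat.le_succ n)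
    constructor
    · intro h ε hε
      filter_upwards [h.eventually_lt_const hε] with n hn
      exact hn.le
    · intro h
      rw [Metric.tendsto_atTop]
      intro ε hε
      obtain ⟨N, hN⟩ := eventually_atTop.1 (h (ε / 2) (by linarith))
      refine ⟨N, fun n hn => ?_⟩
      rw [Real.dist_eq, sub_zero, abs_of_nonneg (hd n)]
      linarith [hN n hn]
  tfae_have 1 → 2 := fun h => (h0.out 0 1).1 (h1.1 h)
  tfae_have 2 → 3 := fun h => (h0.out 1 2).1 h
  tfae_have 3 → 1 := fun h => h1.2 ((h0.out 2 0).1 h)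
  tfae_finish

end Pool.Agent.Results.MP_3998cf_nt.PrimeSumPermutations
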